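import Pool.Agent.H18.TXB.Targets
import Pool.Agent.H18.HIT.PN
import Pool.Agent.H49.VZ.Base

/-!
# PCX: self-maps of small degree have at most one preimage up to scaling (helper49)
-/

set_option autoImplicit false

open MvPolynomial
open Pool.Agent.H12.ZD (pmap)
open Pool.Agent.H18.HIT Pool.Agent.H18.HX Pool.Agent.H18.VZ
open Pool.Agent.H8.TX
open Pool.Agent.H18.TXB

namespace Pool.Agent.H49.TXB

variable {k : Type} [Field k] {n : ℕ}

open Classical in
/-- polynomials separate points -/
theorem sepPt (S : Finset (Fin n → k)) (x : Fin n → k) :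
    ∃ u : Po n k, eval x u = 1 ∧ ∀ x' ∈ S, x' ≠ x → eval x' u = 0 := by
  have h : ∀ x' : Fin n → k, x' ≠ x → ∃ j, x' j ≠ x j := fun x' hx' => by
    by_contra hc
    push Not at hc
    exact hx' (funext hc)
  choose j hj using h
  refine ⟨∏ x' ∈ (S.erase x).attach,
    C (x (j x'.1 (Finset.ne_of_mem_erase x'.2)) - x'.1 (j x'.1 (Finset.ne_of_mem_erase x'.2)))⁻¹ *
      (X (j x'.1 (Finset.ne_of_mem_erase x'.2)) -
        C (x'.1 (j x'.1 (Finset.ne_of_mem_erase x'.2)))), ?_, ?_⟩
  · rw [map_prod]
    refine Finset.prod_eq_one fun x' _ => ?_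
    have h1 := hj x'.1 (Finset.ne_of_mem_erase x'.2)
    simp only [map_mul, map_sub, eval_C, eval_X]
    exact inv_mul_cancel₀ (sub_ne_zero.2 h1.symm)
  · intro x' hx' hne
    rw [map_prod]
    refine Finset.prod_eq_zero (Finset.mem_attach _ ⟨x', Finset.mem_erase.2 ⟨hne, hx'⟩⟩) ?_
    simp only [map_mul, map_sub, eval_C, eval_X, sub_self, mul_zero]

open Classical in
/-- every function on a finite set of points is the restriction of a polynomial -/
theorem interp (S : Finset (Fin n → k)) (g : (Fin n → k) → k) :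
    ∃ u : Po n k, ∀ x ∈ S, eval x u = g x := by
  choose u hu hu' using sepPt S
  refine ⟨∑ x ∈ S, C (g x) * u x, fun x hx => ?_⟩
  rw [map_sum, Finset.sum_eq_single x]
  · rw [map_mul, eval_C, hu, mul_one]
  · intro x' _ hne
    rw [map_mul, hu' x' x hx hne.symm, mul_zero]
  · intro h
    exact absurd hx h

/-- a point outside of the denominator has at most `E` preimages -/
theorem card_le {N E : ℕ} {P θ Δ : Po (N + 1) k} {T : Tup (N + 1) k} (hB : Bas P T E θ Δ)
    {y : Fin (N + 1) → k} (hy : eval y Δ ≠ 0) (S : Finset (Fin (N + 1) → k))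
    (hS : ∀ x ∈ S, eval x P = 0 ∧ pmap T x = y) : S.card ≤ E := by
  let Φ : (Fin E → k) →ₗ[k] ({x // x ∈ S} → k) :=
    { toFun := fun a x => ∑ i : Fin E, eval x.1 θ ^ (i : ℕ) * a i
      map_add' := fun a b => by
        funext x
        simp only [Pi.add_apply, mul_add, Finset.sum_add_distrib]
      map_smul' := fun r a => by
        funext x
        simp only [Pi.smul_apply, smul_eq_mul, RingHom.id_apply, Finset.mul_sum]
        refine Finset.sum_congr rfl fun i _ => ?_
        ring }
  have hsur : Function.Surjective Φ := by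
    classical
    intro g
    obtain ⟨u, hu⟩ := interp S fun x => if h : x ∈ S then g ⟨x, h⟩ else 0
    obtain ⟨M, c, hc⟩ := hB.gen u
    refine ⟨fun i => (eval y Δ ^ M)⁻¹ * eval y (c i), ?_⟩
    funext ⟨x, hx⟩
    obtain ⟨q, hq⟩ := hc
    have h1 := congrArg (eval x) hq
    rw [map_mul, (hS x hx).1, zero_mul, map_sub, sub_eq_zero, map_mul, map_pow, map_sum,
      eval_aeval, (hS x hx).2] at h1
    have h2 : ∑ i : Fin E, eval x (θ ^ (i : ℕ) * aeval T (c i)) =
        ∑ i : Fin E, eval x θ ^ (i : ℕ) * eval y (c i) := by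
      refine Finset.sum_congr rfl fun i _ => ?_
      rw [map_mul, map_pow, eval_aeval, (hS x hx).2]
    rw [h2] at h1
    have h3 := hu x hx
    rw [dif_pos hx] at h3
    have h4 : eval y Δ ^ M ≠ 0 := pow_ne_zero _ hy
    change ∑ i : Fin E, eval x θ ^ (i : ℕ) * ((eval y Δ ^ M)⁻¹ * eval y (c i)) = g ⟨x, hx⟩
    have h5 : ∑ i : Fin E, eval x θ ^ (i : ℕ) * ((eval y Δ ^ M)⁻¹ * eval y (c i)) =
        (eval y Δ ^ M)⁻¹ * ∑ i : Fin E, eval x θ ^ (i : ℕ) * eval y (c i) := by
      rw [Finset.mul_sum]
      refine Finset.sum_congr rfl fun i _ => ?_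
      ring
    rw [h5, ← h1, ← h3, ← mul_assoc, inv_mul_cancel₀ h4, one_mul]
  have h := LinearMap.finrank_le_finrank_of_surjective hsur
  rw [Module.finrank_fin_fun, Module.finrank_fintype_fun_eq_card, Fintype.card_coe] at h
  exact h

theorem pf_PCX : T_PCX := by
  intro N r D E k _ _ _ P θ Δ T hN hD hP hT hs hB hE
  classical
  have hPr : Prime P := hP.irr.prime
  let i0 : Fin N := ⟨0, hN⟩
  refine ⟨Δ * X i0.succ, ?_, ?_⟩
  · rw [Ideal.mem_span_singleton]
    intro h
    rcases hPr.dvd_or_dvd h with h | h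
    · exact hB.ne h
    · apply Pool.Agent.H49.VZ.not_dvd_up hP (X_ne_zero (R := k) i0)
      rw [up, rename_X]
      exact h
  · intro y hy hc S hS hprop
    rw [map_mul, eval_X] at hc
    obtain ⟨hcΔ, hcy⟩ := mul_ne_zero_iff.1 hc
    by_contra hcard
    rw [not_le, Finset.one_lt_card] at hcard
    obtain ⟨x1, h1, x2, h2, hne⟩ := hcard
    have hPx : ∀ x ∈ S, eval x P = 0 := fun x hx =>
      (hS x hx).1 P (Ideal.mem_span_singleton_self P)
    have hn12 : ∀ t : k, ∀ x ∈ S, ∀ x' ∈ S, x ≠ x' → x' ≠ fun i => t * x i := by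
      intro t x hx x' hx' hxx' h
      exact hxx' (hprop x hx x' hx' t fun i => congrFun h i).symm
    have hz : ∀ x ∈ S, x ≠ 0 := by
      intro x hx h0
      apply hcy
      have h3 := congrFun (hS x hx).2 i0.succ
      rw [← h3]
      change eval x (T i0.succ) = 0
      rw [h0]
      have h5 : eval (0 : Fin (N + 1) → k) (T i0.succ) = constantCoeff (T i0.succ) := by
        rw [← MvPolynomial.eval_zero]
      rw [h5]
      by_contra h6
      have h7 := (hT i0.succ) (d := 0) h6
      simp at h7
      omega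
    have : NeZero (D : k) := ⟨by exact_mod_cast (by omega : D ≠ 0)⟩
    obtain ⟨ζ, hζ⟩ := HasEnoughRootsOfUnity.exists_primitiveRoot k D
    have hζ0 : ζ ≠ 0 := hζ.ne_zero (by omega)
    let pt : Bool → (Fin (N + 1) → k) := fun b => if b then x1 else x2
    have hpt : ∀ b, pt b ∈ S := by
      intro b
      cases b
      · exact h2
      · exact h1
    let Ψ : Fin D × Bool → (Fin (N + 1) → k) := fun a i => ζ ^ (a.1 : ℕ) * pt a.2 i
    have hinj : Function.Injective Ψ := by
      rintro ⟨a, b⟩ ⟨a', b'⟩ h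
      have hb : b = b' := by
        by_contra hbb
        have h3 : pt b ≠ pt b' := by
          intro h4
          cases b <;> cases b'
          · exact hbb rfl
          · exact hne (by simpa [pt] using h4.symm)
          · exact hne (by simpa [pt] using h4)
          · exact hbb rfl
        refine hn12 ((ζ ^ (a' : ℕ))⁻¹ * ζ ^ (a : ℕ)) (pt b) (hpt b) (pt b') (hpt b') h3 ?_
        funext i
        have h5 := congrFun h i
        simp only [Ψ] at h5
        rw [mul_assoc, h5, ← mul_assoc, inv_mul_cancel₀ (pow_ne_zero _ hζ0), one_mul]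
      subst hb
      have h6 : ∃ i, pt b i ≠ 0 := by
        by_contra h7
        push Not at h7
        exact hz _ (hpt b) (funext h7)
      obtain ⟨i, hi⟩ := h6
      have h8 := congrFun h i
      simp only [Ψ] at h8
      have h9 := mul_right_cancel₀ hi h8
      have h10 := hζ.pow_inj a.2 a'.2 h9
      rw [Prod.mk.injEq]
      exact ⟨Fin.ext h10, rfl⟩
    have h3 := card_le hB hcΔ (Finset.univ.image Ψ) (by
      intro x hx
      obtain ⟨⟨a, b⟩, -, rfl⟩ := Finset.mem_image.1 hx
      constructor
      · change eval (fun i => ζ ^ (a : ℕ) * pt b i) P = 0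
        rw [eval_smul_of_hom hP.hom, hPx _ (hpt b), mul_zero]
      · change pmap T (fun i => ζ ^ (a : ℕ) * pt b i) = y
        rw [pmap_smul_of_hom hT, (hS _ (hpt b)).2, ← pow_mul, mul_comm, pow_mul,
          hζ.pow_eq_one, one_pow]
        simp only [one_mul])
    rw [Finset.card_image_of_injective _ hinj, Finset.card_univ, Fintype.card_prod,
      Fintype.card_fin, Fintype.card_bool] at h3
    omega

end Pool.Agent.H49.TXB
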